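import Pool.Agent.Helper52.SG.Goals

set_option autoImplicit false

/-!
Packet SG-LGT: groups acting on trees.
-/

namespace Pool.Agent.Helper24.SG.LGT

open Subgroup Pool.H83Shunkov Pool.Agent.Helper29.SH Pool.Agent.Helper52.SG

theorem PG_congr {H K : Type} [Group H] [Group K] (e : H ≃* K) (h : PG H) : PG K := by
  classical
  obtain ⟨S, hS1, hS2⟩ := h
  refine ⟨S.image e, ?_, ?_⟩
  · rw [Finset.coe_image]
    have h1 : closure ((e : H → K) '' (S : Set H)) = (closure (S : Set H)).map e.toMonoidHom :=
      (MonoidHom.map_closure e.toMonoidHom (S : Set H)).symm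
    rw [h1, hS1]
    exact Subgroup.map_top_of_surjective _ e.surjective
  · intro s hs
    obtain ⟨t, ht, rfl⟩ := Finset.mem_image.mp hs
    exact PairFinite.map e.toMonoidHom e.surjective (hS2 t ht)

theorem IQ_congr {H K : Type} [Group H] [Group K] (e : H ≃* K) (h : IQ H) : IQ K := by
  obtain ⟨R, hR, hinf, hrf⟩ := h
  have hn : (R.map e.toMonoidHom).Normal := hR.map _ e.surjective
  refine ⟨R.map e.toMonoidHom, hn, ?_, ?_⟩
  · have e' : H ⧸ R ≃* K ⧸ (R.map e.toMonoidHom) := QuotientGroup.congr R _ e rfl
    exact Infinite.of_injective e' e'.injective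
  · intro x hx
    have hx' : e.symm x ∉ R := by
      intro h
      exact hx ⟨e.symm x, h, e.apply_symm_apply x⟩
    obtain ⟨M, hM1, hM2, hM3, hM4⟩ := hrf (e.symm x) hx'
    refine ⟨M.map e.toMonoidHom, hM1.map _ e.surjective, ?_, Subgroup.map_mono hM3, ?_⟩
    · constructor
      have h1 : (M.map e.toMonoidHom).index = M.index := Subgroup.index_map_of_bijective
        (f := e.toMonoidHom) e.bijective M
      rw [h1]
      exact hM2.index_ne_zero
    · rintro ⟨y, hy, hyx⟩
      apply hM4
      have : e.symm x = y := by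
        rw [← hyx]
        exact e.symm_apply_apply y
      rw [this]
      exact hy

theorem t : S_LGT := by
  intro G V _ _ T hT h1 h2 hst K hK hinf
  have hPG := hK
  obtain ⟨S, hS1, hS2⟩ := hK
  obtain ⟨v, hv⟩ := h_TPR K V T hT (fun g v w h => h1 (g : G) v w h)
    (fun g v w h => h2 (g : G) v w h) S hS2
  have hle : K ≤ MulAction.stabilizer G v := by
    have h3 : (⊤ : Subgroup K) ≤ MulAction.stabilizer K v := by
      rw [← hS1, closure_le]
      intro u hu
      exact hv u hu
    intro g hg
    exact h3 (x := ⟨g, hg⟩) trivial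
  have e : K.subgroupOf (MulAction.stabilizer G v) ≃* K := Subgroup.subgroupOfEquivOfLe hle
  have hinf' : Infinite (K.subgroupOf (MulAction.stabilizer G v)) :=
    Infinite.of_injective e.symm e.symm.injective
  exact IQ_congr e (hst v _ (PG_congr e.symm hPG) hinf')

end Pool.Agent.Helper24.SG.LGT
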